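import Pool.Agent.Work.MP_7453a1_nt_h21.Conf
import Pool.Agent.Work.MP_7453a1_nt_h45.FTwo

set_option autoImplicit false

/-!
Bad exceptional steps: if `M_{i+6} < M_{i+3} + M_{i+4}` and `M_{i+4} - M_{i+3} < M_{i+1}` then
`z_{i+2} = z_{i+5} - z_{i+3}`, for every norm on the plane.
-/

namespace Pool.Agent.Work.MP_7453a1_nt_h21

open Pool.Agent.Work.MP_7453a1_nt_h45 Pool.Agent.Work.MP_7453a1_nt_h63
open Pool.Agent.Work.MP_7453a1_nt_norm

variable {N : Seminorm ℝ V}

/-- Three lines. -/
lemma three_lines {c X Y : V} {R r : ℝ} (hc : N c ≤ R) (hX : N X < 2 * r) (hY : N Y < 2 * r)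
    (hrR : r < R) (hRr : R < 2 * r) (h1 : 2 * R ≤ N (c + Y)) (h2 : 2 * R ≤ N (c - Y))
    (h3 : 2 * R ≤ N (c - X)) (h4 : 2 * r ≤ N (c + X)) (h5 : 2 * R ≤ N (X + Y))
    (h6 : 2 * R ≤ N (X - Y)) : False := by
  have hR : 0 < R := by
    by_contra hcon
    push Not at hcon
    have := apply_nonneg N X
    linarith
  have core : ∀ Y : V, N Y < 2 * r → 2 * R ≤ N (c + Y) → 2 * R ≤ N (c - Y) →
      2 * R ≤ N (X + Y) → 2 * R ≤ N (X - Y) → ∀ α β : ℝ, 0 ≤ β → c = α • X + β • Y → False := by
    intro Y hY h1 h2 h5 h6 α β hβ hcc
    rcases le_or_gt 0 α with hα | hα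
    · have f1 := fact (N := N) (r := 2 * R) (α := 1) (β := α) (γ := β) (a := X) (b := c) (c := Y)
        one_pos hα hβ (by rw [one_smul]; exact hcc) (by linarith) (by linarith) (by linarith)
        (Or.inl (by linarith)) (Or.inl (by linarith)) (Or.inl (by linarith)) h3 h2
      have f2 := fact (N := N) (r := 2 * R) (α := β) (β := 1) (γ := α) (a := c) (b := Y) (c := -X)
        (by linarith [f1.2]) zero_le_one hα (by rw [hcc]; module) (by linarith) (by linarith)
        (by rw [map_neg_eq_map]; linarith)
        (Or.inl (by linarith)) (Or.inl (by linarith)) (Or.inl (by linarith))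
        (by rw [map_sub_rev]; exact h2) (by rw [sub_neg_eq_add, add_comm]; exact h5)
      linarith [f1.2, f2.1]
    · obtain ⟨s, rfl⟩ : ∃ s, α = -s := ⟨-α, by ring⟩
      have hs : 0 < s := by linarith
      have hb : β < 1 ∧ β < s := by
        rcases hβ.eq_or_lt with h0 | h0
        · rw [← h0]; exact ⟨one_pos, hs⟩
        · exact fact (N := N) (r := 2 * R) (α := β) (β := 1) (γ := s) (a := c) (b := Y) (c := X)
            h0 zero_le_one hs.le (by rw [hcc]; module) (by linarith) (by linarith) (by linarith)
            (Or.inl (by linarith)) (Or.inl (by linarith)) (Or.inl (by linarith))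
            (by rw [map_sub_rev]; exact h2) (by rw [map_sub_rev]; exact h6)
      rcases le_or_gt s 1 with hs1 | hs1
      · have e1 := hull (N := N) (c := 1) (p := β) (q := 1 - s) (v := c + X) (x := Y) (y := X)
          zero_le_one hβ (by linarith) (by rw [hcc]; module)
        have e2 : β * N Y ≤ β * (2 * r) := mul_le_mul_of_nonneg_left hY.le hβ
        have e3 : (1 - s) * N X ≤ (1 - s) * (2 * r) := mul_le_mul_of_nonneg_left hX.le (by linarith)
        have e4 : (β + (1 - s)) * (2 * r) < 1 * (2 * r) :=
          mul_lt_mul_of_pos_right (by linarith [hb.2]) (by linarith)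
        linarith
      · have e1 := hull (N := N) (c := s) (p := s - 1) (q := β) (v := c + X) (x := c) (y := Y)
          hs.le (by linarith) hβ (by rw [hcc]; module)
        have e2 : β * N Y ≤ β * (2 * r) := mul_le_mul_of_nonneg_left hY.le hβ
        have e3 : (s - 1) * N c ≤ (s - 1) * R := mul_le_mul_of_nonneg_left hc (by linarith)
        have e4 : s * (2 * r) ≤ s * N (c + X) := mul_le_mul_of_nonneg_left h4 hs.le
        have e5 : (s - 1) * R < (s - 1) * (2 * r) := mul_lt_mul_of_pos_left hRr (by linarith)
        have e6 : (s - 1) * (2 * r) < (s - β) * (2 * r) :=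
          mul_lt_mul_of_pos_right (by linarith [hb.1]) (by linarith)
        linarith
  by_cases hd : det X Y = 0
  · have hY0 : Y ≠ 0 := by
      rintro rfl
      rw [add_zero] at h5
      linarith
    obtain ⟨κ, rfl⟩ := exists_smul_of_det hY0 (by rw [det_anti, hd, neg_zero])
    rw [N_smul] at hX
    rw [show κ • Y + Y = (κ + 1) • Y by module, N_smul] at h5
    rw [show κ • Y - Y = (κ - 1) • Y by module, N_smul] at h6
    have hYn := apply_nonneg N Y
    rcases le_total 0 κ with hk | hk
    · rw [abs_of_nonneg hk] at hX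
      rcases abs_cases (κ - 1) with ⟨k1, _⟩ | ⟨k1, _⟩ <;> rw [k1] at h6 <;> nlinarith
    · rw [abs_of_nonpos hk] at hX
      rcases abs_cases (κ + 1) with ⟨k1, _⟩ | ⟨k1, _⟩ <;> rw [k1] at h5 <;> nlinarith
  · have hrel := det_rel X c Y
    have hcc : c = (det c Y / det X Y) • X + (det X c / det X Y) • Y := by
      have h3 : (det X Y)⁻¹ • (det X Y • c) = (det X Y)⁻¹ • (det c Y • X + det X c • Y) := by
        rw [hrel]
      rw [smul_smul, inv_mul_cancel₀ hd, one_smul, smul_add, smul_smul, smul_smul] at h3
      rw [div_eq_inv_mul, div_eq_inv_mul]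
      exact h3
    rcases le_total 0 (det X c / det X Y) with h0 | h0
    · exact core Y hY h1 h2 h5 h6 _ _ h0 hcc
    · exact core (-Y) (by rwa [map_neg_eq_map]) (by rwa [← sub_eq_add_neg])
        (by rwa [sub_neg_eq_add]) (by rwa [← sub_eq_add_neg]) (by rwa [sub_neg_eq_add])
        (det c Y / det X Y) (-(det X c / det X Y)) (by linarith)
        (by rw [smul_neg, neg_smul, neg_neg]; exact hcc)

end Pool.Agent.Work.MP_7453a1_nt_h21

namespace Pool.Agent.Work.MP_7453a1_nt_h45.IsFrame

open Pool.Agent.Work.MP_7453a1_nt_h45 Pool.Agent.Work.MP_7453a1_nt_h63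
open Pool.Agent.Work.MP_7453a1_nt_norm Pool.Agent.Work.MP_7453a1_nt_h21

variable {N : Seminorm ℝ V} {Θ : V} {z : ℕ → Pt 2}

lemma half (h : IsFrame N Θ z) (k : ℕ) {y v : Pt 2} (e : y = v + v) (hy : y ≠ 0)
    (hq : |y.1| < 2 * (z (k + 1)).1) : 2 * er N Θ (z k) ≤ er N Θ y := by
  have hv : v ≠ 0 := by
    rintro rfl
    exact hy (by rw [e, add_zero])
  have h1 : y.1 = v.1 + v.1 := by rw [e]; rfl
  have h2 := h.excl k v hv (by rw [h1] at hq; rw [abs_lt] at hq ⊢; constructor <;> omega)
  have h3 : er N Θ y = 2 * er N Θ v := by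
    rw [e]; unfold er
    rw [map_add (ev Θ), ← two_smul ℝ, map_smul_eq_mul]
    norm_num
  linarith

lemma er_nonneg' (v : Pt 2) : 0 ≤ er N Θ v := apply_nonneg N _

/-- A bad exceptional step determines the previous point. -/
theorem bad (h : IsFrame N Θ z) (i : ℕ) (hE : (z (i + 6)).1 < (z (i + 3)).1 + (z (i + 4)).1)
    (hB : (z (i + 4)).1 < (z (i + 3)).1 + (z (i + 1)).1) : z (i + 2) = z (i + 5) - z (i + 3) := by
  have hex := h.exceptional (i := i + 3) (j := i + 4) (l := i + 5) (m := i + 6) (by omega)
    (by omega) (by omega) hE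
  have four := h.four (i + 2)
  have m0 := h.mono i (i + 1) (by omega)
  have m1 := h.mono (i + 1) (i + 2) (by omega)
  have m2 := h.mono (i + 2) (i + 3) (by omega)
  have m3 := h.mono (i + 3) (i + 4) (by omega)
  have m4 := h.mono (i + 4) (i + 5) (by omega)
  have m5 := h.mono (i + 5) (i + 6) (by omega)
  have l0 := h.anti i (i + 1) (by omega)
  have l1 := h.anti (i + 1) (i + 2) (by omega)
  have l2 := h.anti (i + 2) (i + 3) (by omega)
  have l3 := h.anti (i + 3) (i + 4) (by omega)
  have l4 := h.anti (i + 4) (i + 5) (by omega)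
  have l5 := h.anti (i + 5) (i + 6) (by omega)
  have pos := h.pos i
  have nn := er_nonneg' (N := N) (Θ := Θ) (z (i + 6))
  have X0 := h.excl i
  have X1 := h.excl (i + 1)
  have X2 := h.excl (i + 2)
  have X3 := h.excl (i + 3)
  have X4 := h.excl (i + 4)
  have H1 := fun (y v : Pt 2) => h.half (i + 1) (y := y) (v := v)
  have H2 := fun (y v : Pt 2) => h.half (i + 2) (y := y) (v := v)
  have H3 := fun (y v : Pt 2) => h.half (i + 3) (y := y) (v := v)
  rw [show i + 1 + 1 = i + 2 by omega] at X1 H1
  rw [show i + 2 + 1 = i + 3 by omega] at X2 H2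
  rw [show i + 3 + 1 = i + 4 by omega] at X3 H3
  rw [show i + 4 + 1 = i + 5 by omega] at X4
  rw [show i + 2 + 2 = i + 4 by omega, show i + 2 + 4 = i + 6 by omega] at four
  generalize hz0 : z i = zm3 at *
  generalize hz1 : z (i + 1) = b at *
  generalize hz2 : z (i + 2) = c at *
  generalize hz3 : z (i + 3) = a0 at *
  generalize hz4 : z (i + 4) = a1 at *
  generalize hz5 : z (i + 5) = a2 at *
  generalize hz6 : z (i + 6) = a3 at *
  obtain ⟨w, hw⟩ : ∃ w, w = a1 - a0 := ⟨_, rfl⟩
  obtain ⟨u, hu⟩ : ∃ u, u = a2 - a0 := ⟨_, rfl⟩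
  have e1 : a1 = a0 + w := by rw [hw]; abel
  have e2 : a2 = a0 + u := by rw [hu]; abel
  have e3 : a3 = a0 + u + w := by
    have : a3 = a1 + a2 - a0 := by rw [← hex]; abel
    rw [this, e1, e2]; abel
  rw [← hu]
  have q1 : a1.1 = a0.1 + w.1 := by rw [e1]; rfl
  have q2 : a2.1 = a0.1 + u.1 := by rw [e2]; rfl
  have q3 : a3.1 = a0.1 + u.1 + w.1 := by rw [e3]; rfl
  have ne_of : ∀ v : Pt 2, v.1 ≠ 0 → v ≠ 0 := by
    rintro v hv rfl
    exact hv rfl
  -- lengths
  have lu : er N Θ c ≤ er N Θ u := X2 u (ne_of u (by omega)) (by rw [abs_lt]; constructor <;> omega)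
  have lw : er N Θ zm3 ≤ er N Θ w :=
    X0 w (ne_of w (by omega)) (by rw [abs_lt]; constructor <;> omega)
  have lX : er N Θ (u + w) ≤ er N Θ a3 + er N Θ a0 := by
    have := er_sub_le (N := N) (Θ := Θ) a3 a0
    rwa [show a3 - a0 = u + w by rw [e3]; abel] at this
  have lY : er N Θ (u - w) ≤ er N Θ a2 + er N Θ a1 := by
    have := er_sub_le (N := N) (Θ := Θ) a2 a1
    rwa [show a2 - a1 = u - w by rw [e2, e1]; abel] at this
  have lwu : er N Θ w ≤ er N Θ a1 + er N Θ a0 := by rw [hw]; exact er_sub_le _ _
  have luu : er N Θ u ≤ er N Θ a2 + er N Θ a0 := by rw [hu]; exact er_sub_le _ _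
  have qY : (u - w).1 = u.1 - w.1 := rfl
  have qX : (u + w).1 = u.1 + w.1 := rfl
  -- independence modulo two
  have cl := classes (a := a0) (b := u) (c := w)
    (by intro v hv
        have := H2 a0 v hv (ne_of _ (by omega)) (by rw [abs_lt]; constructor <;> omega)
        linarith)
    (by intro v hv
        have := H2 u v hv (ne_of _ (by omega)) (by rw [abs_lt]; constructor <;> omega)
        linarith)
    (by intro v hv
        have := H2 w v hv (ne_of _ (by omega)) (by rw [abs_lt]; constructor <;> omega)
        linarith)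
    (by intro v hv
        rw [← e2] at hv
        have := H2 a2 v hv (ne_of _ (by omega)) (by rw [abs_lt]; constructor <;> omega)
        linarith)
    (by intro v hv
        rw [← e1] at hv
        have := H2 a1 v hv (ne_of _ (by omega)) (by rw [abs_lt]; constructor <;> omega)
        linarith)
    (by intro v hv
        have := H2 (u + w) v hv (ne_of _ (by omega)) (by rw [abs_lt]; constructor <;> omega)
        linarith)
    (by intro v hv
        rw [← e3] at hv
        have := H3 a3 v hv (ne_of _ (by omega)) (by rw [abs_lt]; constructor <;> omega)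
        linarith)
    c
  obtain ⟨v, cl⟩ := cl
  rcases cl with cl | cl | cl | cl | cl | cl | cl | cl
  · exfalso
    have := H1 c v cl (ne_of _ (by omega)) (by rw [abs_lt]; constructor <;> omega)
    linarith
  · exfalso
    have := H2 (c - a0) v (by rw [cl]; abel) (ne_of _ (by simp only [Prod.fst_sub]; omega))
      (by simp only [Prod.fst_sub]; rw [abs_lt]; constructor <;> omega)
    have := er_sub_le (N := N) (Θ := Θ) c a0
    linarith
  · -- class of `u`
    by_contra hne
    have k1 := H2 (c - u) v (by rw [cl]; abel) (sub_ne_zero.mpr hne)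
      (by simp only [Prod.fst_sub]; rw [abs_lt]; constructor <;> omega)
    have k2 := H2 (c + u) (v + u) (by rw [cl]; abel)
      (ne_of _ (by simp only [Prod.fst_add]; omega))
      (by simp only [Prod.fst_add]; rw [abs_lt]; constructor <;> omega)
    have k3 := cmp (N := N) (a := ev Θ c) (u := ev Θ w) (w := ev Θ u) (r := 2 * er N Θ c)
      (by change er N Θ c ≤ er N Θ w; linarith)
      (by rw [← map_add (ev Θ)]; change er N Θ (u + w) < _; linarith)
      (by rw [← map_sub (ev Θ)]; change er N Θ (u - w) < _; linarith)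
    rw [← map_add (ev Θ), ← map_sub (ev Θ)] at k3
    rcases k3 with k3 | k3
    · change er N Θ (u + c) < _ at k3
      rw [add_comm] at k3
      linarith
    · change er N Θ (u - c) < _ at k3
      rw [show u - c = -(c - u) by abel, er_neg] at k3
      linarith
  · -- class of `w`
    exfalso
    have k1 := H1 (c - w) v (by rw [cl]; abel) (ne_of _ (by simp only [Prod.fst_sub]; omega))
      (by simp only [Prod.fst_sub]; rw [abs_lt]; constructor <;> omega)
    have k2 := H1 (c + w) (v + w) (by rw [cl]; abel)
      (ne_of _ (by simp only [Prod.fst_add]; omega))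
      (by simp only [Prod.fst_add]; rw [abs_lt]; constructor <;> omega)
    have k3 := cmp (N := N) (a := ev Θ c) (u := ev Θ u) (w := ev Θ w) (r := 2 * er N Θ b)
      lu
      (by rw [← map_add (ev Θ)]; change er N Θ (w + u) < _; rw [add_comm]; linarith)
      (by rw [← map_sub (ev Θ)]; change er N Θ (w - u) < _
          rw [show w - u = -(u - w) by abel, er_neg]; linarith)
    rw [← map_add (ev Θ), ← map_sub (ev Θ)] at k3
    rcases k3 with k3 | k3
    · change er N Θ (w + c) < _ at k3
      rw [add_comm] at k3
      linarith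
    · change er N Θ (w - c) < _ at k3
      rw [show w - c = -(c - w) by abel, er_neg] at k3
      linarith
  · exfalso
    have := H2 (c - a2) v (by rw [cl, e2]; abel) (ne_of _ (by simp only [Prod.fst_sub]; omega))
      (by simp only [Prod.fst_sub]; rw [abs_lt]; constructor <;> omega)
    have := er_sub_le (N := N) (Θ := Θ) c a2
    linarith
  · exfalso
    have := H2 (c - a1) v (by rw [cl, e1]; abel) (ne_of _ (by simp only [Prod.fst_sub]; omega))
      (by simp only [Prod.fst_sub]; rw [abs_lt]; constructor <;> omega)
    have := er_sub_le (N := N) (Θ := Θ) c a1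
    linarith
  · -- class of `u + w`
    exfalso
    have k1 := H2 (c - (u + w)) v (by rw [cl]; abel)
      (ne_of _ (by simp only [Prod.fst_sub, Prod.fst_add]; omega))
      (by simp only [Prod.fst_sub, Prod.fst_add]; rw [abs_lt]; constructor <;> omega)
    have k2 := H3 (c + (u + w)) (v + (u + w)) (by rw [cl]; abel)
      (ne_of _ (by simp only [Prod.fst_add]; omega))
      (by simp only [Prod.fst_add]; rw [abs_lt]; constructor <;> omega)
    have k4 := H2 (c + (u - w)) (v + u) (by rw [cl]; abel)
      (ne_of _ (by simp only [Prod.fst_add, Prod.fst_sub]; omega))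
      (by simp only [Prod.fst_add, Prod.fst_sub]; rw [abs_lt]; constructor <;> omega)
    have k5 : er N Θ c ≤ er N Θ (u - w) := X2 (u - w) (ne_of _ (by omega))
      (by rw [abs_lt]; constructor <;> omega)
    by_cases hY : c = u - w
    · -- the special configuration
      have hcq : c.1 = u.1 - w.1 := by rw [hY]; rfl
      have K : Conf N (ev Θ c) (ev Θ w) (ev Θ a1) (ev Θ b) (er N Θ c) (er N Θ b) (er N Θ a0)
          (er N Θ a1) (er N Θ a2) (er N Θ a3) :=
        { nx := rfl
          nb := rfl
          n0 := by rw [← map_sub (ev Θ), show a1 - w = a0 by rw [e1]; abel]; rfl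
          n1 := rfl
          n2 := by rw [← map_add (ev Θ), show a1 + c = a2 by rw [e1, e2, hY]; abel]; rfl
          n3 := by
            rw [← map_add (ev Θ), ← map_add (ev Θ),
              show a1 + c + w = a3 by rw [e1, e3, hY]; abel]; rfl
          o3 := l5, o2 := l4, o1 := l3, o0 := l2, oR := l1
          hw := by change er N Θ b ≤ er N Θ w; linarith
          hu := by
            rw [← map_add (ev Θ), show c + w = u by rw [hY]; abel]; exact lu
          hxw := by
            rw [← map_sub (ev Θ)]
            exact X2 _ (ne_of _ (by simp only [Prod.fst_sub]; omega))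
              (by simp only [Prod.fst_sub]; rw [abs_lt]; constructor <;> omega)
          hc := by
            rw [← map_sub (ev Θ), ← map_sub (ev Θ)]
            exact X2 _ (ne_of _ (by simp only [Prod.fst_sub]; omega))
              (by simp only [Prod.fst_sub]; rw [abs_lt]; constructor <;> omega)
          hbw := by
            rw [← map_add (ev Θ)]
            exact X2 _ (ne_of _ (by simp only [Prod.fst_add]; omega))
              (by simp only [Prod.fst_add]; rw [abs_lt]; constructor <;> omega)
          hbw' := by
            rw [← map_sub (ev Θ)]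
            exact X2 _ (ne_of _ (by simp only [Prod.fst_sub]; omega))
              (by simp only [Prod.fst_sub]; rw [abs_lt]; constructor <;> omega)
          hbx := by
            rw [← map_sub (ev Θ)]
            exact X1 _ (ne_of _ (by simp only [Prod.fst_sub]; omega))
              (by simp only [Prod.fst_sub]; rw [abs_lt]; constructor <;> omega)
          hbu := by
            rw [← map_sub (ev Θ), ← map_sub (ev Θ)]
            exact X1 _ (ne_of _ (by simp only [Prod.fst_sub]; omega))
              (by simp only [Prod.fst_sub]; rw [abs_lt]; constructor <;> omega)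
          c1 := by
            intro k hk1 hk2
            have e : ev Θ b - ev Θ c + (k : ℝ) • ev Θ w = ev Θ (b - c + k • w) := by
              rw [map_add (ev Θ), map_sub (ev Θ), map_zsmul (ev Θ), Int.cast_smul_eq_zsmul]
            rw [e]
            have hq : (b - c + k • w).1 = b.1 - c.1 + k * w.1 := by
              simp [Prod.fst_add, Prod.fst_sub, Prod.smul_fst]
            by_cases h0 : b - c + k • w = 0
            · left
              refine ⟨?_, by rw [h0, map_zero]⟩
              rw [h0] at hq
              change 0 = b.1 - c.1 + k * w.1 at hq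
              by_contra hcon
              push Not at hcon
              nlinarith
            · right
              refine X2 _ h0 ?_
              rw [hq, abs_lt]
              constructor <;> nlinarith
          c2 := by
            intro k hk1 hk2
            have e : ev Θ b + ev Θ c + (k : ℝ) • ev Θ w = ev Θ (b + c + k • w) := by
              rw [map_add (ev Θ), map_add (ev Θ), map_zsmul (ev Θ), Int.cast_smul_eq_zsmul]
            rw [e]
            have hq : (b + c + k • w).1 = b.1 + c.1 + k * w.1 := by
              simp [Prod.fst_add, Prod.smul_fst]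
            refine X4 _ (ne_of _ ?_) ?_
            · rw [hq]; nlinarith
            · rw [hq, abs_lt]
              constructor <;> nlinarith
          c3 := by
            intro k hk1 hk2
            have e : ev Θ a1 - ev Θ c - ev Θ b + (k : ℝ) • ev Θ w = ev Θ (a1 - c - b + k • w) := by
              rw [map_add (ev Θ), map_sub (ev Θ), map_sub (ev Θ), map_zsmul (ev Θ),
                Int.cast_smul_eq_zsmul]
            rw [e]
            have hq : (a1 - c - b + k • w).1 = a1.1 - c.1 - b.1 + k * w.1 := by
              simp [Prod.fst_add, Prod.fst_sub, Prod.smul_fst]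
            by_cases h0 : a1 - c - b + k • w = 0
            · left; rw [h0, map_zero]
            · right
              refine X3 _ h0 ?_
              rw [hq, abs_lt]
              constructor <;> nlinarith }
      exact K.false
    · have k3 := H2 (c - (u - w)) (v + w) (by rw [cl]; abel) (sub_ne_zero.mpr hY)
        (by simp only [Prod.fst_sub]; rw [abs_lt]; constructor <;> omega)
      have t1 : ev Θ (u + w) + ev Θ (u - w) = (2 : ℝ) • ev Θ u := by
        rw [map_add (ev Θ), map_sub (ev Θ)]; module
      have t2 : ev Θ (u + w) - ev Θ (u - w) = (2 : ℝ) • ev Θ w := by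
        rw [map_add (ev Θ), map_sub (ev Θ)]; module
      refine three_lines (N := N) (c := ev Θ c) (X := ev Θ (u + w)) (Y := ev Θ (u - w))
        (R := er N Θ c) (r := er N Θ a0) le_rfl ?_ ?_ l2 (by linarith) ?_ ?_ ?_ ?_ ?_ ?_
      · change er N Θ (u + w) < _; linarith
      · change er N Θ (u - w) < _; linarith
      · rw [← map_add (ev Θ)]; exact k4
      · rw [← map_sub (ev Θ)]; exact k3
      · rw [← map_sub (ev Θ)]; exact k1
      · rw [← map_add (ev Θ)]; exact k2
      · rw [t1, N_smul, abs_of_pos two_pos]
        change 2 * er N Θ c ≤ 2 * er N Θ u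
        linarith
      · rw [t2, N_smul, abs_of_pos two_pos]
        change 2 * er N Θ c ≤ 2 * er N Θ w
        linarith
  · exfalso
    have := H2 (c - a3) v (by rw [cl, e3]; abel) (ne_of _ (by simp only [Prod.fst_sub]; omega))
      (by simp only [Prod.fst_sub]; rw [abs_lt]; constructor <;> omega)
    have := er_sub_le (N := N) (Θ := Θ) c a3
    linarith

end Pool.Agent.Work.MP_7453a1_nt_h45.IsFrame
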