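import Pool.Agent.Work.MP_7453a1_nt_h21.Plane

set_option autoImplicit false

/-!
The configuration `z_{-1} = z_2 - z_1`, `q (z_1 - z_0) < M_{-2}` does not exist: planar part.
-/

namespace Pool.Agent.Work.MP_7453a1_nt_h21

open Pool.Agent.Work.MP_7453a1_nt_h45 Pool.Agent.Work.MP_7453a1_nt_h63

/-- The planar conditions: `e, e + x, e - w, e + x + w` are the four vectors of an exceptional step,
`x` is the previous error vector and `b` the one before. -/
structure Conf (N : Seminorm ℝ V) (x w e b : V) (R B L0 L1 L2 L3 : ℝ) : Prop where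
  nx : N x = R
  nb : N b = B
  n0 : N (e - w) = L0
  n1 : N e = L1
  n2 : N (e + x) = L2
  n3 : N (e + x + w) = L3
  o3 : L3 < L2
  o2 : L2 < L1
  o1 : L1 < L0
  o0 : L0 < R
  oR : R < B
  hw : B ≤ N w
  hu : R ≤ N (x + w)
  hxw : R ≤ N (x - w)
  hc : R ≤ N (e - w - x)
  hbw : R ≤ N (b + w)
  hbw' : R ≤ N (b - w)
  hbx : B ≤ N (b - x)
  hbu : B ≤ N (b - x - w)
  c1 : ∀ k : ℤ, -2 ≤ k → k ≤ 2 → (1 ≤ k ∧ b - x + (k : ℝ) • w = 0) ∨ R ≤ N (b - x + (k : ℝ) • w)
  c2 : ∀ k : ℤ, -2 ≤ k → k ≤ 2 → L1 ≤ N (b + x + (k : ℝ) • w)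
  c3 : ∀ k : ℤ, -3 ≤ k → k ≤ 2 → e - x - b + (k : ℝ) • w = 0 ∨ L0 ≤ N (e - x - b + (k : ℝ) • w)

namespace Conf

variable {N : Seminorm ℝ V} {x w e b : V} {R B L0 L1 L2 L3 : ℝ}

lemma L3_nonneg (h : Conf N x w e b R B L0 L1 L2 L3) : 0 ≤ L3 := by
  rw [← h.n3]; exact apply_nonneg N _

lemma R_pos (h : Conf N x w e b R B L0 L1 L2 L3) : 0 < R := by
  linarith [h.L3_nonneg, h.o3, h.o2, h.o1, h.o0]

lemma nondeg (h : Conf N x w e b R B L0 L1 L2 L3) : det w x ≠ 0 := by
  intro h0
  have hR := h.R_pos
  have hx : x ≠ 0 := by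
    rintro rfl
    have := h.nx
    rw [map_zero] at this
    linarith
  obtain ⟨κ, rfl⟩ := exists_smul_of_det hx (by rw [det_anti, h0, neg_zero])
  have h1 := h.hw
  rw [N_smul, h.nx] at h1
  have h2 := h.hu
  rw [show x + κ • x = (1 + κ) • x by module, N_smul, h.nx] at h2
  have h3 : N ((1 + 2 * κ) • x) ≤ L3 + L0 := by
    have := map_sub_le_add N (e + x + κ • x) (e - κ • x)
    rw [h.n3, h.n0] at this
    rwa [show e + x + κ • x - (e - κ • x) = (1 + 2 * κ) • x by module] at this
  rw [N_smul, h.nx] at h3
  have h4 : 1 < |κ| := by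
    have : 1 * R < |κ| * R := by linarith [h.oR]
    exact lt_of_mul_lt_mul_right this hR.le
  have h5 : 1 ≤ |1 + κ| := by
    have : 1 * R ≤ |1 + κ| * R := by linarith
    exact le_of_mul_le_mul_right this hR
  have h6 : |1 + 2 * κ| < 2 := by
    have : |1 + 2 * κ| * R < 2 * R := by linarith [h.o3, h.o2, h.o1, h.o0]
    exact lt_of_mul_lt_mul_right this hR.le
  rw [abs_lt] at h6
  rcases abs_cases κ with ⟨k1, _⟩ | ⟨k1, _⟩ <;> rcases abs_cases (1 + κ) with ⟨k2, _⟩ | ⟨k2, _⟩ <;>
    rw [k1] at h4 <;> rw [k2] at h5 <;> linarith [h6.1, h6.2]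

/-- A bound for the multiple of `w`. -/
lemma kbound (h : Conf N x w e b R B L0 L1 L2 L3) {v : V} {k m : ℤ} {C r : ℝ}
    (hk : N (v + (k : ℝ) • w) < r) (hv : N v ≤ C) (hm : C + r ≤ m * B) : |k| < m := by
  have hB : 0 < B := by linarith [h.R_pos, h.oR]
  have h1 : N ((k : ℝ) • w) ≤ N (v + (k : ℝ) • w) + N v := by
    have := map_sub_le_add N (v + (k : ℝ) • w) v
    rwa [show v + (k : ℝ) • w - v = (k : ℝ) • w by abel] at this
  rw [N_smul] at h1
  have h2 : |(k : ℝ)| * B ≤ |(k : ℝ)| * N w := mul_le_mul_of_nonneg_left h.hw (abs_nonneg _)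
  have h3 : |(k : ℝ)| * B < m * B := by linarith
  have h4 := lt_of_mul_lt_mul_right h3 hB.le
  rw [← Int.cast_abs] at h4
  exact_mod_cast h4

theorem false (h : Conf N x w e b R B L0 L1 L2 L3) : False := by
  have hR := h.R_pos
  have hBR := h.oR
  have hL0R := h.o0
  have hL10 := h.o1
  have hL21 := h.o2
  have hL32 := h.o3
  have hL3 := h.L3_nonneg
  have hD := h.nondeg
  -- columns
  have colA : ∀ u : V, |det w u| ≤ |det w e| → det w e ≠ 0 → ∃ k : ℤ, N (u + (k : ℝ) • w) < L0 := by
    intro u hu he
    have e1 : det w (e - w) = det w e := by rw [det_sub, det_self, sub_zero]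
    have := row (N := N) (x := w) (a := e - w) (u := u) (by rwa [e1]) (by rwa [e1])
      (by rw [sub_add_cancel, h.n1, h.n0]; exact hL10)
    rwa [h.n0] at this
  have colB : ∀ u : V, |det w u| ≤ |det w (e + x)| → det w (e + x) ≠ 0 →
      ∃ k : ℤ, N (u + (k : ℝ) • w) < L2 := by
    intro u hu he
    have := row (N := N) (x := w) (a := e + x) (u := u) he hu (by rw [h.n3, h.n2]; exact hL32)
    rwa [h.n2] at this
  obtain ⟨t, ht⟩ := exists_coord hD e
  obtain ⟨γ, hγ⟩ := exists_coord hD b
  obtain ⟨a, ha⟩ : ∃ a, det w e / det w x = -a := ⟨-(det w e / det w x), by ring⟩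
  obtain ⟨p, hp⟩ : ∃ p, t = -p := ⟨-t, by ring⟩
  rw [ha, hp] at ht
  set β := det w b / det w x with hβdef
  have hde : det w e = -a * det w x := by rw [← ha]; field_simp
  have hde' : det w (e + x) = (1 - a) * det w x := by rw [det_add, hde]; ring
  have hdb : det w b = β * det w x := by rw [hβdef]; field_simp
  have hDa : 0 < |det w x| := abs_pos.mpr hD
  have hx3 : ∀ k : ℤ, |k| < 2 → R ≤ N (x + (k : ℝ) • w) := by
    intro k hk
    rw [abs_lt] at hk
    obtain rfl | rfl | rfl : k = -1 ∨ k = 0 ∨ k = 1 := by omega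
    · rw [show x + ((-1 : ℤ) : ℝ) • w = x - w by push_cast; module]; exact h.hxw
    · rw [show x + ((0 : ℤ) : ℝ) • w = x by push_cast; module, h.nx]
    · rw [show x + ((1 : ℤ) : ℝ) • w = x + w by push_cast; module]; exact h.hu
  have ha1 : |a| < 1 := by
    by_contra hcon
    push Not at hcon
    obtain ⟨k, hk⟩ := colA x (by rw [hde, abs_mul, abs_neg]; nlinarith)
      (by rw [hde]; exact mul_ne_zero (by intro h0; rw [neg_eq_zero] at h0; rw [h0] at hcon; norm_num at hcon) hD)
    have := hx3 k (h.kbound (m := 2) (C := R) hk h.nx.le (by push_cast; linarith))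
    linarith
  have ha2 : |1 - a| < 1 := by
    by_contra hcon
    push Not at hcon
    obtain ⟨k, hk⟩ := colB x (by rw [hde', abs_mul]; nlinarith)
      (by rw [hde']; exact mul_ne_zero (by intro h0; rw [h0] at hcon; norm_num at hcon) hD)
    have := hx3 k (h.kbound (m := 2) (C := R) hk h.nx.le (by push_cast; linarith))
    linarith
  rw [abs_lt] at ha1 ha2
  have ha0 : 0 < a := by linarith [ha2.2]
  have ha1' : a < 1 := ha1.2
  have colA' : ∀ u : V, |det w u| ≤ a * |det w x| → ∃ k : ℤ, N (u + (k : ℝ) • w) < L0 := by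
    intro u hu
    refine colA u (by rwa [hde, abs_mul, abs_neg, abs_of_pos ha0]) ?_
    rw [hde]; exact mul_ne_zero (by linarith) hD
  have colB' : ∀ u : V, |det w u| ≤ (1 - a) * |det w x| → ∃ k : ℤ, N (u + (k : ℝ) • w) < L2 := by
    intro u hu
    refine colB u (by rwa [hde', abs_mul, abs_of_pos (by linarith : (0 : ℝ) < 1 - a)]) ?_
    rw [hde']; exact mul_ne_zero (by linarith) hD
  have base : Base N x w a p R B L0 L1 L2 L3 :=
    { nx := h.nx
      n0 := by
        rw [← h.n0, ← map_neg_eq_map N (e - w), ht]; congr 1; module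
      n1 := by
        rw [← h.n1, ← map_neg_eq_map N e, ht]; congr 1; module
      n2 := by rw [← h.n2, ht]; congr 1; module
      n3 := by rw [← h.n3, ht]; congr 1; module
      o3 := hL32, o2 := hL21, o1 := hL10, o0 := hL0R, oR := hBR, hw := h.hw, hu := h.hu
      a0 := ha0, a1 := ha1' }
  have hp0 := base.p_pos
  have hpa := base.p_lt
  -- the first coordinate of `b`
  have hb2 : ∀ k : ℤ, |k| < 2 → R ≤ N (b + (k : ℝ) • w) := by
    intro k hk
    rw [abs_lt] at hk
    obtain rfl | rfl | rfl : k = -1 ∨ k = 0 ∨ k = 1 := by omega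
    · rw [show b + ((-1 : ℤ) : ℝ) • w = b - w by push_cast; module]; exact h.hbw'
    · rw [show b + ((0 : ℤ) : ℝ) • w = b by push_cast; module, h.nb]; exact hBR.le
    · rw [show b + ((1 : ℤ) : ℝ) • w = b + w by push_cast; module]; exact h.hbw
  have b1 : a < |β| := by
    by_contra hcon
    push Not at hcon
    obtain ⟨k, hk⟩ := colA' b (by rw [hdb, abs_mul]; exact mul_le_mul_of_nonneg_right hcon hDa.le)
    have := hb2 k (h.kbound (m := 2) (C := B) hk h.nb.le (by push_cast; linarith))
    linarith
  have b2 : 1 - a < |β| := by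
    by_contra hcon
    push Not at hcon
    obtain ⟨k, hk⟩ := colB' b (by rw [hdb, abs_mul]; exact mul_le_mul_of_nonneg_right hcon hDa.le)
    have := hb2 k (h.kbound (m := 2) (C := B) hk h.nb.le (by push_cast; linarith))
    linarith
  rcases lt_or_ge 0 β with hβ | hβ
  · -- `β > 0`
    have hdbx : det w (b - x) = (β - 1) * det w x := by rw [det_sub, hdb]; ring
    have hbxC : N (b - x) ≤ B + R := by
      have := map_sub_le_add N b x
      rwa [h.nb, h.nx] at this
    have hb3 : ∀ k : ℤ, |k| < 3 → R ≤ N (b - x + (k : ℝ) • w) := by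
      intro k hk
      rw [abs_lt] at hk
      rcases h.c1 k (by omega) (by omega) with ⟨hk1, h0⟩ | h1
      · exfalso
        have hk1' : (1 : ℝ) ≤ (k : ℝ) := by exact_mod_cast hk1
        have hb : b = (1 : ℝ) • x - (k : ℝ) • w := by
          rw [one_smul]
          have : b - (x - (k : ℝ) • w) = 0 := by rw [← h0]; abel
          exact sub_eq_zero.mp this
        have := base.quad24g (δ := 1) (g := k) (by linarith) one_pos (by rw [← hb, h.nb])
        linarith
      · exact h1
    have b3 : a < |β - 1| := by
      by_contra hcon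
      push Not at hcon
      obtain ⟨k, hk⟩ := colA' (b - x)
        (by rw [hdbx, abs_mul]; exact mul_le_mul_of_nonneg_right hcon hDa.le)
      have := hb3 k (h.kbound (m := 3) (C := B + R) hk hbxC (by push_cast; linarith))
      linarith
    have b4 : 1 - a < |β - 1| := by
      by_contra hcon
      push Not at hcon
      obtain ⟨k, hk⟩ := colB' (b - x)
        (by rw [hdbx, abs_mul]; exact mul_le_mul_of_nonneg_right hcon hDa.le)
      have := hb3 k (h.kbound (m := 3) (C := B + R) hk hbxC (by push_cast; linarith))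
      linarith
    rw [abs_of_pos hβ] at b1 b2
    have hβ1 : 1 + a < β := by
      rcases abs_cases (β - 1) with ⟨h1, _⟩ | ⟨h1, _⟩ <;> rw [h1] at b3 b4 <;> linarith
    rcases lt_or_ge 0 γ with hγ0 | hγ0
    · refine base.quad1 hγ0 hβ1.le ?_ ?_ ?_ ?_
      · rw [← hγ, h.nb]
      · refine h.hbx.trans (le_of_eq ?_)
        rw [hγ]; congr 1; module
      · refine h.hbu.trans (le_of_eq ?_)
        rw [hγ]; congr 1; module
      · refine h.hc.trans (le_of_eq ?_)
        rw [← map_neg_eq_map N (e - w - x), ht]; congr 1; module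
    · refine base.quad24 (δ := β) (g := -γ) (by linarith) hβ1.le (le_of_eq ?_)
      rw [← h.nb, hγ]; congr 1; module
  · -- `β ≤ 0`
    obtain ⟨β', hβ'⟩ : ∃ β', β = -β' := ⟨-β, by ring⟩
    rw [hβ'] at hβ hdb hγ b1 b2
    rw [abs_neg, abs_of_nonneg (by linarith : 0 ≤ β')] at b1 b2
    have hβ1 : 1 < β' := by
      by_contra hcon
      push Not at hcon
      have hdbx : det w (b + x) = (1 - β') * det w x := by rw [det_add, hdb]; ring
      obtain ⟨k, hk⟩ := colB' (b + x)
        (by rw [hdbx, abs_mul, abs_of_nonneg (by linarith : (0 : ℝ) ≤ 1 - β')]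
            exact mul_le_mul_of_nonneg_right (by linarith) hDa.le)
      have hC : N (b + x) ≤ B + R := by
        have := map_add_le_add N b x
        rwa [h.nb, h.nx] at this
      have h1 := h.kbound (m := 3) (C := B + R) hk hC (by push_cast; linarith)
      rw [abs_lt] at h1
      have := h.c2 k (by omega) (by omega)
      linarith
    -- the vector `t = e - x - b`
    have htC : N (e - x - b) ≤ L1 + R + B := by
      have h1 := map_sub_le_add N (e - x) b
      have h2 := map_sub_le_add N e x
      rw [h.nb] at h1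
      rw [h.nx, h.n1] at h2
      linarith
    have hdt : det w (e - x - b) = (β' - 1 - a) * det w x := by
      rw [det_sub, det_sub, hdb, hde]; ring
    have hdtk : ∀ k : ℝ, det w (e - x - b + k • w) = (β' - 1 - a) * det w x := by
      intro k
      rw [det_add, det_smul, det_self, hdt]; ring
    rcases le_or_gt 0 γ with hγ0 | hγ0
    · -- second quadrant
      have hβa : β' < 1 + a := by
        by_contra hcon
        push Not at hcon
        refine base.quad24 (δ := β') (g := γ) hγ0 hcon (le_of_eq ?_)
        rw [← h.nb, ← map_neg_eq_map N b, hγ]; congr 1; module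
      have hγ1 : γ < 1 := by
        refine base.quad24g (δ := β') (g := γ) hγ0 (by linarith) (le_of_eq ?_)
        rw [← h.nb, ← map_neg_eq_map N b, hγ]; congr 1; module
      obtain ⟨k, hk⟩ := colA' (e - x - b)
        (by rw [hdt, abs_mul, abs_of_neg (by linarith : β' - 1 - a < 0)]
            exact mul_le_mul_of_nonneg_right (by linarith) hDa.le)
      have h1 := h.kbound (m := 4) (C := L1 + R + B) hk htC (by push_cast; linarith)
      rw [abs_lt] at h1
      rcases (show k ≤ 2 ∨ k = 3 by omega) with h2 | rfl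
      · rcases h.c3 k (by omega) h2 with h3 | h3
        · have := hdtk k
          rw [h3] at this
          have h4 : det w 0 = 0 := by unfold det; simp
          rw [h4] at this
          rcases mul_eq_zero.mp this.symm with h5 | h5
          · linarith
          · exact hD h5
        · linarith
      · have h3 := hull (N := N) (c := a * (3 - p - γ) + (1 + a - β') * (1 + p)) (p := a)
          (q := 1 + a - β') (v := w) (x := e - x - b + ((3 : ℤ) : ℝ) • w)
          (y := a • x + (1 + p) • w)
          (by have : 0 < 3 - p - γ := by linarith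
              have : 0 < 1 + a - β' := by linarith
              positivity) ha0.le (by linarith) (by rw [ht, hγ]; push_cast; module)
        rw [base.n0] at h3
        have hw := h.hw
        have h4 : 0 < a * (3 - p - γ) + (1 + a - β') * (1 + p) := by
          have : 0 < 3 - p - γ := by linarith
          have : 0 < 1 + a - β' := by linarith
          positivity
        have h5 := mul_le_mul_of_nonneg_left hw h4.le
        have h6 := mul_lt_mul_of_pos_left (hk.trans (hL0R.trans hBR)) ha0
        have h7 := mul_le_mul_of_nonneg_left (hL0R.trans hBR).le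
          (by linarith : (0 : ℝ) ≤ 1 + a - β')
        have hB0 : 0 < B := by linarith
        have h8 : (a * (3 - p - γ) + (1 + a - β') * (1 + p)) * B < (a + (1 + a - β')) * B := by
          linarith
        have h9 := lt_of_mul_lt_mul_right h8 hB0.le
        nlinarith
    · -- third quadrant
      have hd : N (β' • x + (-γ) • w) ≤ B := by
        refine le_of_eq ?_
        rw [← h.nb, ← map_neg_eq_map N b, hγ]; congr 1; module
      have hβa : β' < 1 + 2 * a := by
        by_contra hcon
        push Not at hcon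
        exact base.far13 (by linarith) hcon hd
      obtain ⟨k, hk⟩ := colA' (e - x - b)
        (by rw [hdt, abs_mul]
            refine mul_le_mul_of_nonneg_right ?_ hDa.le
            rw [abs_le]; constructor <;> linarith)
      have h1 := h.kbound (m := 4) (C := L1 + R + B) hk htC (by push_cast; linarith)
      rw [abs_lt] at h1
      rcases (show k ≤ 2 ∨ k = 3 by omega) with h2 | rfl
      · rcases h.c3 k (by omega) h2 with h3 | h3
        · have h5 := hdtk k
          rw [h3] at h5
          have h4 : det w 0 = 0 := by unfold det; simp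
          rw [h4] at h5
          have h6 : β' = 1 + a := by
            rcases mul_eq_zero.mp h5.symm with h5 | h5
            · linarith
            · exact absurd h5 hD
          have h7 : (k - p - γ) • w = 0 := by
            rw [← h3, ht, hγ, h6]; module
          have h8 : (k : ℝ) - p - γ = 0 := by
            by_contra hne
            have : w = 0 := (smul_eq_zero.mp h7).resolve_left hne
            have h9 := h.hw
            rw [this, map_zero] at h9
            linarith
          have h9 : -γ = p - k := by linarith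
          rw [h9, h6] at hd
          rcases (show k = 0 ∨ k = -1 ∨ k ≤ -2 ∨ 1 ≤ k by omega) with rfl | rfl | h10 | h10
          · refine base.gamma0 ?_
            rw [Int.cast_zero, sub_zero] at hd
            exact hd
          · refine base.gamma1 ?_
            rw [show p - ((-1 : ℤ) : ℝ) = 1 + p by push_cast; ring] at hd
            exact hd
          · have h11 := base.quad13_lt (β := 1 + a) (g := p - k) le_rfl hd
            have h12 : (k : ℝ) ≤ -2 := by exact_mod_cast h10
            linarith
          · have h12 : (1 : ℝ) ≤ k := by exact_mod_cast h10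
            linarith
        · linarith
      · have h3 := hull (N := N) (c := 3 - p - γ) (p := 1)
          (q := 1) (v := w) (x := e - x - b + ((3 : ℤ) : ℝ) • w)
          (y := -((β' - 1 - a) • x)) (by linarith) zero_le_one zero_le_one
          (by rw [ht, hγ]; push_cast; module)
        rw [N_neg, N_smul, h.nx] at h3
        have h4 : |β' - 1 - a| ≤ 1 := by rw [abs_le]; constructor <;> linarith
        have h5 : |β' - 1 - a| * R ≤ 1 * R := mul_le_mul_of_nonneg_right h4 hR.le
        have h6 := mul_le_mul_of_nonneg_left h.hw (by linarith : (0 : ℝ) ≤ 3 - p - γ)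
        have h7 : (3 - p - γ) * B < 2 * B := by linarith
        have h8 := lt_of_mul_lt_mul_right h7 (by linarith)
        linarith

end Conf

end Pool.Agent.Work.MP_7453a1_nt_h21
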