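import Pool.Agent.Work.MP_7453a1_nt_h45.Cmp

set_option autoImplicit false

/-!
Parallelograms with sides `w`, `x + w` around the origin of a normed plane with a short diagonal `x`
and a long side `w`.
-/

namespace Pool.Agent.Work.MP_7453a1_nt_h21

open Pool.Agent.Work.MP_7453a1_nt_h45 Pool.Agent.Work.MP_7453a1_nt_h63

variable {N : Seminorm ℝ V}

lemma hull {c p q : ℝ} {v x y : V} (hc : 0 ≤ c) (hp : 0 ≤ p) (hq : 0 ≤ q)
    (h : c • v = p • x + q • y) : c * N v ≤ p * N x + q * N y := by
  have := N_hull (N := N) p q hc h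
  rwa [abs_of_nonneg hp, abs_of_nonneg hq] at this

lemma hullm {c p q : ℝ} {v x y : V} (hc : 0 ≤ c) (hp : 0 ≤ p) (hq : 0 ≤ q)
    (h : c • v = p • x - q • y) : c * N v ≤ p * N x + q * N y := by
  have := N_hull (N := N) p (-q) (x := x) (y := y) hc (by rw [h]; module)
  rwa [abs_neg, abs_of_nonneg hp, abs_of_nonneg hq] at this

/-- The parallelogram in coordinates: the vertices are `-(a x + (1 + p) w)`, `-(a x + p w)`,
`(1 - a) x - p w`, `(1 - a) x + (1 - p) w`. -/
structure Base (N : Seminorm ℝ V) (x w : V) (a p R B L0 L1 L2 L3 : ℝ) : Prop where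
  nx : N x = R
  n0 : N (a • x + (1 + p) • w) = L0
  n1 : N (a • x + p • w) = L1
  n2 : N ((1 - a) • x - p • w) = L2
  n3 : N ((1 - a) • x + (1 - p) • w) = L3
  o3 : L3 < L2
  o2 : L2 < L1
  o1 : L1 < L0
  o0 : L0 < R
  oR : R < B
  hw : B ≤ N w
  hu : R ≤ N (x + w)
  a0 : 0 < a
  a1 : a < 1

namespace Base

variable {x w : V} {a p R B L0 L1 L2 L3 : ℝ}

lemma L3_nonneg (h : Base N x w a p R B L0 L1 L2 L3) : 0 ≤ L3 := by
  rw [← h.n3]; exact apply_nonneg N _

lemma R_pos (h : Base N x w a p R B L0 L1 L2 L3) : 0 < R := by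
  have := h.L3_nonneg
  linarith [h.o3, h.o2, h.o1, h.o0]

lemma p_pos (h : Base N x w a p R B L0 L1 L2 L3) : 0 < p := by
  by_contra hcon
  push Not at hcon
  have h1 := hull (N := N) (c := 1 - p) (p := -p) (q := 1 - a) (v := (1 - a) • x - p • w)
    (x := (1 - a) • x + (1 - p) • w) (y := x) (by linarith) (by linarith) (by linarith [h.a1])
    (by module)
  have h2 := hull (N := N) (c := 1 - p) (p := 1) (q := a - p) (v := x + w)
    (x := (1 - a) • x + (1 - p) • w) (y := x) (by linarith) (by linarith) (by linarith [h.a0])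
    (by module)
  rw [h.n2, h.n3, h.nx] at h1
  rw [h.n3, h.nx] at h2
  have h3 := h.hu
  have h4 := h.o3
  have h5 : (1 - p) * R ≤ (1 - p) * N (x + w) := mul_le_mul_of_nonneg_left h3 (by linarith)
  nlinarith

lemma s3 (h : Base N x w a p R B L0 L1 L2 L3) : (1 + p) * B ≤ L0 + a * R := by
  have hp := h.p_pos
  have h1 := hullm (N := N) (c := 1 + p) (p := 1) (q := a) (v := w)
    (x := a • x + (1 + p) • w) (y := x) (by linarith) (by linarith) h.a0.le (by module)
  rw [h.n0, h.nx] at h1
  have h5 : (1 + p) * B ≤ (1 + p) * N w := mul_le_mul_of_nonneg_left h.hw (by linarith)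
  linarith

lemma B_lt (h : Base N x w a p R B L0 L1 L2 L3) : B < (1 + a) * R := by
  have h1 := h.s3
  have h2 := h.p_pos
  have h3 := h.o0
  have h4 := h.oR
  have h5 := h.R_pos
  nlinarith

lemma p_lt (h : Base N x w a p R B L0 L1 L2 L3) : p < a := by
  have h1 := h.s3
  have h2 := h.p_pos
  have h3 := h.o0
  have h4 := h.oR
  have h5 := h.R_pos
  nlinarith

lemma s1 (h : Base N x w a p R B L0 L1 L2 L3) : (1 - a) * R ≤ L3 := by
  have h2 := hull (N := N) (c := 1 - p) (p := 1) (q := a - p) (v := x + w)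
    (x := (1 - a) • x + (1 - p) • w) (y := x) (by linarith [h.p_lt, h.a1]) (by linarith)
    (by linarith [h.p_lt]) (by module)
  rw [h.n3, h.nx] at h2
  have h5 : (1 - p) * R ≤ (1 - p) * N (x + w) :=
    mul_le_mul_of_nonneg_left h.hu (by linarith [h.p_lt, h.a1])
  nlinarith

lemma s6 (h : Base N x w a p R B L0 L1 L2 L3) : B ≤ L2 + L3 := by
  have h1 := hullm (N := N) (c := 1) (p := 1) (q := 1) (v := w)
    (x := (1 - a) • x + (1 - p) • w) (y := (1 - a) • x - p • w) zero_le_one zero_le_one
    zero_le_one (by module)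
  rw [h.n2, h.n3] at h1
  linarith [h.hw]

lemma a_half (h : Base N x w a p R B L0 L1 L2 L3) : 1 / 2 < a := by
  have h1 := hull (N := N) (c := 1 - a) (p := a - p) (q := p) (v := a • x + p • w)
    (x := (1 - a) • x - p • w) (y := (1 - a) • x + (1 - p) • w) (by linarith [h.a1])
    (by linarith [h.p_lt]) h.p_pos.le (by module)
  rw [h.n1, h.n2, h.n3] at h1
  have h2 := h.p_pos
  have h3 := h.p_lt
  have h4 := h.o3
  have h5 := h.o2
  have h6 := h.L3_nonneg
  have h7 : (a - p) * L2 ≤ (a - p) * L1 := mul_le_mul_of_nonneg_left h5.le (by linarith)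
  have h8 : p * L3 < p * L1 := mul_lt_mul_of_pos_left (by linarith) h2
  have h9 : (1 - a) * L1 < a * L1 := by nlinarith
  have h10 : 1 - a < a := lt_of_mul_lt_mul_right h9 (by linarith)
  linarith

lemma sig (h : Base N x w a p R B L0 L1 L2 L3) : a - p < 1 / 2 := by
  have hp := h.p_pos
  have hpa := h.p_lt
  have ha := h.a1
  rcases le_or_gt (1 / 2) p with hp2 | hp2
  · linarith
  have h1 := hullm (N := N) (c := 1 - p) (p := 1 - a) (q := p) (v := (1 - a) • x - p • w)
    (x := x) (y := (1 - a) • x + (1 - p) • w) (by linarith) (by linarith) hp.le (by module)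
  rw [h.n2, h.n3, h.nx] at h1
  have h2 := h.s6
  have h3 := h.o3
  have h4 := h.oR
  have h5 := h.R_pos
  have h6 : p * L3 < p * L2 := mul_lt_mul_of_pos_left h3 hp
  have h7 : (1 - 2 * p) * L2 < (1 - a) * R := by linarith
  have h8 : R < 2 * L2 := by linarith
  have h9 : (1 - 2 * p) * R ≤ (1 - 2 * p) * (2 * L2) :=
    mul_le_mul_of_nonneg_left h8.le (by linarith)
  have h10 : (1 - 2 * p) * R < (2 - 2 * a) * R := by linarith
  have h11 := lt_of_mul_lt_mul_right h10 h5.le
  linarith

/-- No short vector with first coordinate at least `1 + a` and second coordinate at most `0`. -/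
lemma quad24 (h : Base N x w a p R B L0 L1 L2 L3) {δ g : ℝ} (hg : 0 ≤ g) (hδ : 1 + a ≤ δ)
    (hd : N (δ • x - g • w) ≤ B) : False := by
  have hp := h.p_pos
  have hpa := h.p_lt
  have ha := h.a1
  have ha0 := h.a0
  have hR := h.R_pos
  have hB := h.B_lt
  rcases le_or_gt (p * δ) ((1 - a) * g) with hc | hc
  · have hg0 : 0 < g := by
      by_contra hcon
      push Not at hcon
      have : g = 0 := le_antisymm hcon hg
      rw [this, mul_zero] at hc
      have : 0 < p * δ := mul_pos hp (by linarith)
      linarith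
    have h1 := hull (N := N) (c := g) (p := p) (q := g * (1 - a) - p * δ)
      (v := (1 - a) • x - p • w) (x := δ • x - g • w) (y := x) hg hp.le (by linarith) (by module)
    rw [h.n2, h.nx] at h1
    have h2 : p * N (δ • x - g • w) ≤ p * B := mul_le_mul_of_nonneg_left hd hp.le
    have h3 : B < δ * R := lt_of_lt_of_le hB (mul_le_mul_of_nonneg_right hδ hR.le)
    have h4 : p * B < p * (δ * R) := mul_lt_mul_of_pos_left h3 hp
    have h5 : g * L2 < g * ((1 - a) * R) := by nlinarith
    have h6 : L2 < (1 - a) * R := lt_of_mul_lt_mul_left h5 hg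
    linarith [h.s1, h.o3]
  · have hδ0 : 0 < δ := by linarith
    have h1 := hull (N := N) (c := δ * (1 + p) + g * a) (p := 1 + p) (q := g)
      (v := x) (x := δ • x - g • w) (y := a • x + (1 + p) • w) (by positivity) (by linarith) hg
      (by module)
    rw [h.n0, h.nx] at h1
    have h2 : (1 + p) * N (δ • x - g • w) ≤ (1 + p) * B :=
      mul_le_mul_of_nonneg_left hd (by linarith)
    have h3 := h.s3
    have h4 : (1 + g) * L0 < (1 + g) * R := mul_lt_mul_of_pos_left h.o0 (by linarith)
    have h5 : (δ * (1 + p) + g * a) * R < (1 + g + a) * R := by nlinarith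
    have h6 := lt_of_mul_lt_mul_right h5 hR.le
    nlinarith

/-- The second coordinate of a short vector of the second or fourth quadrant. -/
lemma quad24g (h : Base N x w a p R B L0 L1 L2 L3) {δ g : ℝ} (hg : 0 ≤ g) (hδ : 0 < δ)
    (hd : N (δ • x - g • w) ≤ B) : g < 1 := by
  have hp := h.p_pos
  have ha0 := h.a0
  have hR := h.R_pos
  have hB : 0 < B := by linarith [h.oR]
  have h1 := hullm (N := N) (c := g * a + δ * (1 + p)) (p := δ) (q := a)
    (v := w) (x := a • x + (1 + p) • w) (y := δ • x - g • w) (by positivity) hδ.le ha0.le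
    (by module)
  rw [h.n0] at h1
  have h2 : a * N (δ • x - g • w) ≤ a * B := mul_le_mul_of_nonneg_left hd ha0.le
  have h3 : (g * a + δ * (1 + p)) * B ≤ (g * a + δ * (1 + p)) * N w :=
    mul_le_mul_of_nonneg_left h.hw (by positivity)
  have h4 : δ * L0 < δ * B := mul_lt_mul_of_pos_left (by linarith [h.o0, h.oR]) hδ
  have h5 : (g * a + δ * (1 + p)) * B < (a + δ) * B := by linarith
  have h6 := lt_of_mul_lt_mul_right h5 hB.le
  have h7 : 0 < δ * p := mul_pos hδ hp
  have h8 : g * a < 1 * a := by linarith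
  exact lt_of_mul_lt_mul_right h8 ha0.le

/-- A short vector of the first quadrant with first coordinate at least `1 + a` lies below the
diagonal. -/
lemma quad13_lt (h : Base N x w a p R B L0 L1 L2 L3) {β g : ℝ} (hβ : 1 + a ≤ β)
    (hd : N (β • x + g • w) ≤ B) : g < β := by
  by_contra hcon
  push Not at hcon
  have hR := h.R_pos
  have hB := h.B_lt
  have ha0 := h.a0
  have h1 := hull (N := N) (c := g) (p := 1) (q := g - β) (v := x + w) (x := β • x + g • w)
    (y := x) (by linarith) zero_le_one (by linarith) (by module)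
  rw [h.nx] at h1
  have h2 : g * R ≤ g * N (x + w) := mul_le_mul_of_nonneg_left h.hu (by linarith)
  have h3 : (1 + a) * R ≤ β * R := mul_le_mul_of_nonneg_right hβ hR.le
  nlinarith

/-- No short vector of the first quadrant has first coordinate at least `1 + 2 a`. -/
lemma far13 (h : Base N x w a p R B L0 L1 L2 L3) {β g : ℝ} (hg : 0 < g) (hβ : 1 + 2 * a ≤ β)
    (hd : N (β • x + g • w) ≤ B) : False := by
  have hp := h.p_pos
  have hpa := h.p_lt
  have ha := h.a1
  have ha0 := h.a0
  have hR := h.R_pos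
  have hBR := h.oR
  have hB0 : 0 < B := by linarith
  have hL1 : B < 2 * L1 := by linarith [h.s6, h.o3, h.o2]
  have hL0R := h.o0
  have hL0 : 0 < L0 := by linarith [h.L3_nonneg, h.o3, h.o2, h.o1]
  have hgβ := h.quad13_lt (β := β) (g := g) (by linarith) hd
  rcases le_or_gt (a * g) (p * β) with hc | hc
  · have hD : 0 < β * (1 + p) - g * a := by nlinarith
    have h1 := hullm (N := N) (c := β * (1 + p) - g * a) (p := β) (q := a) (v := w)
      (x := a • x + (1 + p) • w) (y := β • x + g • w) hD.le (by linarith) ha0.le (by module)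
    rw [h.n0] at h1
    have h2 := hull (N := N) (c := β * (1 + p) - g * a) (p := a)
      (q := β * (1 + p) - g * a - β) (v := a • x + p • w)
      (x := β • x + g • w) (y := a • x + (1 + p) • w) hD.le ha0.le (by nlinarith) (by module)
    rw [h.n0, h.n1] at h2
    have h3 : a * N (β • x + g • w) ≤ a * B := mul_le_mul_of_nonneg_left hd ha0.le
    set D := β * (1 + p) - g * a with hDdef
    have h4 : D * B ≤ D * N w := mul_le_mul_of_nonneg_left h.hw hD.le
    have h5 : β * L0 < β * B := mul_lt_mul_of_pos_left (by linarith) (by linarith)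
    have h6 : D * B < (a + β) * B := by linarith
    have h7 := lt_of_mul_lt_mul_right h6 hB0.le
    have h8 : D * B < D * (2 * L1) := mul_lt_mul_of_pos_left hL1 hD
    have h9 : (D - β) * L0 ≤ (D - β) * B :=
      mul_le_mul_of_nonneg_left (by linarith) (by rw [hDdef]; nlinarith)
    have h10 : D * B < (2 * a + 2 * (D - β)) * B := by nlinarith
    have h11 := lt_of_mul_lt_mul_right h10 hB0.le
    linarith
  · have hσ := h.sig
    have hah := h.a_half
    have h1 := hull (N := N) (c := g) (p := p) (q := a * g - p * β) (v := a • x + p • w)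
      (x := β • x + g • w) (y := x) hg.le hp.le (by linarith) (by module)
    rw [h.n1, h.nx] at h1
    have hD : 0 < β * (1 + p) - g * a := by nlinarith
    have h2 := hull (N := N) (c := β * (1 + p) - g * a) (p := 1 + p - a) (q := β - g)
      (v := x + w) (x := β • x + g • w) (y := a • x + (1 + p) • w) hD.le (by linarith)
      (by linarith) (by module)
    rw [h.n0] at h2
    have h3 : p * N (β • x + g • w) ≤ p * B := mul_le_mul_of_nonneg_left hd hp.le
    have h4 : (1 + p - a) * N (β • x + g • w) ≤ (1 + p - a) * B :=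
      mul_le_mul_of_nonneg_left hd (by linarith)
    have h5 : (β * (1 + p) - g * a) * R ≤ (β * (1 + p) - g * a) * N (x + w) :=
      mul_le_mul_of_nonneg_left h.hu hD.le
    have h6 : (β - g) * L0 ≤ (β - g) * R := mul_le_mul_of_nonneg_left hL0R.le (by linarith)
    have h7 : g * B < g * (2 * L1) := mul_lt_mul_of_pos_left hL1 hg
    -- normalise
    obtain ⟨t, ht⟩ : ∃ t, B = t * R := ⟨B / R, by field_simp⟩
    have ht1 : 1 < t := by
      have : 1 * R < t * R := by linarith
      exact lt_of_mul_lt_mul_right this hR.le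
    have ht2 : t < 1 + a := by
      have : t * R < (1 + a) * R := by linarith [h.B_lt]
      exact lt_of_mul_lt_mul_right this hR.le
    have k1 : g * t < 2 * p * t + 2 * (a * g - p * β) := by
      have : (g * t) * R < (2 * p * t + 2 * (a * g - p * β)) * R := by
        rw [ht] at h7 h3; nlinarith
      exact lt_of_mul_lt_mul_right this hR.le
    have k2 : p * β + (1 - a) * g ≤ (1 + p - a) * t := by
      have : (p * β + (1 - a) * g) * R ≤ ((1 + p - a) * t) * R := by
        rw [ht] at h4; nlinarith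
      exact le_of_mul_le_mul_right this hR
    have k3 : 2 * p * (1 + 2 * a - t) < g * (2 * a - t) := by nlinarith
    have k4 : 0 < 2 * a - t := by
      by_contra hcon
      push Not at hcon
      have : g * (2 * a - t) ≤ 0 := mul_nonpos_of_nonneg_of_nonpos hg.le hcon
      have : 0 < 2 * p * (1 + 2 * a - t) := by
        have : 0 < 1 + 2 * a - t := by linarith
        positivity
      linarith
    have k5 : (1 - a) * g ≤ (1 + p - a) * t - p * (1 + 2 * a) := by nlinarith
    have k6 : (1 + p - a) * t - p * (1 + 2 * a) ≤ 1 - a := by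
      nlinarith [sq_nonneg (a - 1 / 2)]
    have k7 : (1 - a) * g ≤ 1 - a := k5.trans k6
    have k8 : g ≤ 1 := by
      have : (1 - a) * g ≤ (1 - a) * 1 := by linarith
      exact le_of_mul_le_mul_left this (by linarith)
    nlinarith

/-- The first quadrant, for a vector `b` which is not shortened by `x` and `x + w`. -/
lemma quad1 (h : Base N x w a p R B L0 L1 L2 L3) {β γ : ℝ} (hγ : 0 < γ) (hβ : 1 + a ≤ β)
    (hb : N (β • x + γ • w) ≤ B) (hbx : B ≤ N ((β - 1) • x + γ • w))
    (hbu : B ≤ N ((β - 1) • x + (γ - 1) • w)) (hc : R ≤ N ((1 + a) • x + (1 + p) • w)) :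
    False := by
  have hp := h.p_pos
  have hpa := h.p_lt
  have ha := h.a1
  have ha0 := h.a0
  have hR := h.R_pos
  have hBR := h.oR
  have hB0 : 0 < B := by linarith
  have hL0R := h.o0
  rcases lt_or_ge (γ * (1 + a)) ((1 + p) * β) with hA | hA
  · rcases le_or_gt (γ * a) ((1 + p) * (β - 1)) with h1 | h1
    · have hD : 0 < (1 + p) * β - γ * a := by nlinarith
      have e1 := hull (N := N) (c := (1 + p) * β - γ * a) (p := (1 + p) * (β - 1) - γ * a) (q := γ)
        (v := (β - 1) • x + γ • w) (x := β • x + γ • w) (y := a • x + (1 + p) • w) hD.le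
        (by linarith) hγ.le (by module)
      have e2 := hull (N := N) (c := (1 + p) * β - γ * a) (p := 1 + p)
        (q := (1 + p) * β - γ * a - γ)
        (v := (1 + a) • x + (1 + p) • w) (x := β • x + γ • w) (y := a • x + (1 + p) • w) hD.le
        (by linarith) (by nlinarith) (by module)
      rw [h.n0] at e1 e2
      set D := (1 + p) * β - γ * a with hDdef
      have e3 : D * B ≤ D * N ((β - 1) • x + γ • w) := mul_le_mul_of_nonneg_left hbx hD.le
      have e4 : ((1 + p) * (β - 1) - γ * a) * N (β • x + γ • w)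
          ≤ ((1 + p) * (β - 1) - γ * a) * B := mul_le_mul_of_nonneg_left hb (by linarith)
      have e5 : D * R ≤ D * N ((1 + a) • x + (1 + p) • w) := mul_le_mul_of_nonneg_left hc hD.le
      have e6 : (1 + p) * N (β • x + γ • w) ≤ (1 + p) * B :=
        mul_le_mul_of_nonneg_left hb (by linarith)
      have e7 : (1 + p) * B ≤ γ * L0 := by rw [hDdef] at e3 e1; nlinarith
      have e8 : D * L0 < D * R := mul_lt_mul_of_pos_left hL0R hD
      nlinarith
    · have h2 : γ < 1 + p := by nlinarith
      have h3 : (1 + p) * (β - 1) < (1 + p) * a := by nlinarith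
      have h4 := lt_of_mul_lt_mul_left h3 (by linarith)
      linarith
  · have hlt := h.quad13_lt hβ hb
    have hγ1 : 1 < γ := by
      have : (1 + p) * (1 + a) ≤ γ * (1 + a) := by nlinarith
      have := le_of_mul_le_mul_right this (by linarith)
      linarith
    have e1 := hull (N := N) (c := γ) (p := 1 + p) (q := γ * (1 + a) - (1 + p) * β)
      (v := (1 + a) • x + (1 + p) • w) (x := β • x + γ • w) (y := x) hγ.le (by linarith)
      (by linarith) (by module)
    have e2 := hull (N := N) (c := γ) (p := γ - 1) (q := β - γ)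
      (v := (β - 1) • x + (γ - 1) • w) (x := β • x + γ • w) (y := x) hγ.le (by linarith)
      (by linarith) (by module)
    rw [h.nx] at e1 e2
    have e3 : γ * B ≤ γ * N ((β - 1) • x + (γ - 1) • w) := mul_le_mul_of_nonneg_left hbu hγ.le
    have e4 : (γ - 1) * N (β • x + γ • w) ≤ (γ - 1) * B :=
      mul_le_mul_of_nonneg_left hb (by linarith)
    have e5 : γ * R ≤ γ * N ((1 + a) • x + (1 + p) • w) := mul_le_mul_of_nonneg_left hc hγ.le
    have e6 : (1 + p) * N (β • x + γ • w) ≤ (1 + p) * B :=
      mul_le_mul_of_nonneg_left hb (by linarith)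
    have e7 : B ≤ (β - γ) * R := by nlinarith
    have e8 : (1 + p) * B ≤ (1 + p) * ((β - γ) * R) := mul_le_mul_of_nonneg_left e7 (by linarith)
    have e9 : ((1 + p) * γ) * R ≤ (γ * a) * R := by nlinarith
    have e10 := le_of_mul_le_mul_right e9 hR
    nlinarith

lemma gamma0 (h : Base N x w a p R B L0 L1 L2 L3) (hd : N ((1 + a) • x + p • w) ≤ B) : False := by
  have hp := h.p_pos
  have hpa := h.p_lt
  have ha := h.a1
  have ha0 := h.a0
  have h1 := hull (N := N) (c := 2) (p := 1) (q := 1) (v := x) (x := (1 - a) • x - p • w)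
    (y := (1 + a) • x + p • w) (by norm_num) (by norm_num) (by norm_num) (by module)
  have h2 := hullm (N := N) (c := 1 + p) (p := 1 - a + p) (q := p) (v := (1 - a) • x - p • w)
    (x := x) (y := a • x + (1 + p) • w) (by linarith) (by linarith) hp.le (by module)
  rw [h.nx, h.n2] at h1
  rw [h.n2, h.nx, h.n0] at h2
  have h3 := h.s3
  have h4 := h.o0
  nlinarith

lemma gamma1 (h : Base N x w a p R B L0 L1 L2 L3) (hd : N ((1 + a) • x + (1 + p) • w) ≤ B) :
    False := by
  have hp := h.p_pos
  have hpa := h.p_lt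
  have ha := h.a1
  have ha0 := h.a0
  have hσ := h.sig
  have hR := h.R_pos
  have hBR := h.oR
  have hL1 : B < 2 * L1 := by linarith [h.s6, h.o3, h.o2]
  have h1 := hull (N := N) (c := 1 + p) (p := p) (q := a - p) (v := a • x + p • w)
    (x := (1 + a) • x + (1 + p) • w) (y := x) (by linarith) hp.le (by linarith) (by module)
  have h2 := hull (N := N) (c := 1 + p) (p := 1 + p - a) (q := a - p) (v := x + w)
    (x := (1 + a) • x + (1 + p) • w) (y := a • x + (1 + p) • w) (by linarith) (by linarith)
    (by linarith) (by module)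
  rw [h.n1, h.nx] at h1
  rw [h.n0] at h2
  have h3 : p * N ((1 + a) • x + (1 + p) • w) ≤ p * B := mul_le_mul_of_nonneg_left hd hp.le
  have h4 : (1 + p - a) * N ((1 + a) • x + (1 + p) • w) ≤ (1 + p - a) * B :=
    mul_le_mul_of_nonneg_left hd (by linarith)
  have h5 : (1 + p) * R ≤ (1 + p) * N (x + w) := mul_le_mul_of_nonneg_left h.hu (by linarith)
  have h6 : (a - p) * L0 ≤ (a - p) * R := mul_le_mul_of_nonneg_left h.o0.le (by linarith)
  obtain ⟨t, ht⟩ : ∃ t, B = t * R := ⟨B / R, by field_simp⟩
  have k1 : (1 - p) * t < 2 * (a - p) := by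
    have : ((1 - p) * t) * R < (2 * (a - p)) * R := by
      rw [ht] at hL1 h3; nlinarith
    exact lt_of_mul_lt_mul_right this hR.le
  have k2 : 1 + 2 * p - a ≤ (1 + p - a) * t := by
    have : (1 + 2 * p - a) * R ≤ ((1 + p - a) * t) * R := by
      rw [ht] at h4; nlinarith
    exact le_of_mul_le_mul_right this hR
  have k3 : (1 - p) * (1 + 2 * p - a) ≤ (1 - p) * ((1 + p - a) * t) :=
    mul_le_mul_of_nonneg_left k2 (by linarith)
  have k4 : (1 + p - a) * ((1 - p) * t) < (1 + p - a) * (2 * (a - p)) :=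
    mul_lt_mul_of_pos_left k1 (by linarith)
  have k5 : (1 - p) * (1 + 2 * p - a) < (1 + p - a) * (2 * (a - p)) := by nlinarith
  -- `(1 - p)(1 - σ + p) ≥ 2 σ (1 - σ)` with `σ = a - p`
  obtain ⟨σ, hs⟩ : ∃ σ, a = p + σ := ⟨a - p, by ring⟩
  subst hs
  have hσ1 : σ < 1 / 2 := by linarith
  have hσ0 : 0 < σ := by linarith
  have k6 : (1 - p) * (1 + p - σ) < (1 - σ) * (2 * σ) := by nlinarith
  rcases le_total p σ with h7 | h7
  · nlinarith [mul_nonneg hp.le (sub_nonneg.mpr h7)]
  · nlinarith [mul_nonneg (sub_nonneg.mpr h7) (show 0 ≤ 1 - σ - p by linarith)]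

end Base

end Pool.Agent.Work.MP_7453a1_nt_h21
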